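import Mathlib
import Pool.Agent.H66.VNum1

set_option autoImplicit false

namespace Pool.Agent.Results.MP_a79530_al.Counter
open Pool.Agent.H66.VNum MvPolynomial

/-- For `I = (x^5, y^2, z^5, x z, y z)` the prime `p = (x, y, z)` is associated to every power of
`I`, and `v_p(I^2) < v_p(I)`. -/
theorem result (K : Type) [Field K] :
    ∃ I p : Ideal (MvPolynomial (Fin 3) K), IsHomog I ∧ (∀ k, 1 ≤ k → p ∈ Ass (I ^ k)) ∧
      vloc (I ^ 2) p < vloc (I ^ 1) p :=
  ⟨mon K A1, mm K, mon_homog _, drop.1, by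
    have h1 := (drop (K := K)).2.1
    have h2 := (drop (K := K)).2.2
    have h3 := (drop (K := K)).1 2 (by norm_num)
    omega⟩

end Pool.Agent.Results.MP_a79530_al.Counter
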